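import Mathlib
import Pool.Agent.H.MP_84cbe7_co.Main

set_option autoImplicit false

namespace Pool.Agent.Results.MP_84cbe7_co.PathCounter

open Finset

/-- the matrix `u 0 • σ₁ + u 1 • σ₂ + u 2 • σ₃` -/
def pauli (u : EuclideanSpace ℝ (Fin 3)) : Matrix (Fin 2) (Fin 2) ℂ :=
  (u 0 : ℂ) • !![0, 1; 1, 0] + (u 1 : ℂ) • !![0, -Complex.I; Complex.I, 0] +
    (u 2 : ℂ) • !![1, 0; 0, -1]

/-- the symplectic form on `ℂ²` -/
def omega (a b : Fin 2 → ℂ) : ℂ := a 0 * b 1 - a 1 * b 0

open Pool.Agent.H.MP_84cbe7_co in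
theorem result :
    ¬ ∀ (n : ℕ) (T : SimpleGraph (Fin n)) [DecidableRel T.Adj], T.IsTree →
      ∀ x : Fin n → EuclideanSpace ℝ (Fin 3), (∀ i j, T.Adj i j → x i ≠ x j) →
      ∀ ψ : T.Dart → Fin 2 → ℂ,
        (∀ d : T.Dart, ‖ψ d 0‖ ^ 2 + ‖ψ d 1‖ ^ 2 = 1 ∧
          (pauli (‖x d.snd - x d.fst‖⁻¹ • (x d.snd - x d.fst))).mulVec (ψ d) = ψ d) →
      ∀ Δ : Finset T.Dart, (∀ d : T.Dart, d ∈ Δ ↔ d.symm ∉ Δ) →
        1 ≤ ((∑ σ ∈ (Finset.univ : Finset (Equiv.Perm T.Dart)).filter
                (fun σ => ∀ d : T.Dart, (σ d).fst = d.fst),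
              ∏ d ∈ Δ, omega (ψ (σ d)) (ψ (σ d.symm))) /
            ∏ d ∈ Δ, omega (ψ d) (ψ d.symm)).re := by
  intro H
  have h := H 18 T T_tree (fun i => pos i.val) (by
    intro i j hij e
    rcases SimpleGraph.pathGraph_adj.1 hij with h | h
    · have := pos_norm i.val
      rw [h, ← e] at this
      simp at this
    · have := pos_norm j.val
      rw [h, e] at this
      simp at this) psi (by
    intro d
    unfold psi
    rcases dart_adj d with h | h
    · rw [if_pos h, ← h, pos_norm, pos_step]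
      unfold ff
      split_ifs
      all_goals
        refine ⟨by simp [Complex.sq_norm, Complex.normSq_apply] <;> norm_num, ?_⟩
        ext k
        fin_cases k <;> simp [pauli, Matrix.mulVec, dotProduct, Complex.ext_iff] <;> norm_num
    · rw [if_neg (by omega), ← h, ← neg_sub, norm_neg, pos_norm, pos_step]
      unfold bb
      split_ifs
      all_goals
        refine ⟨by simp [Complex.sq_norm, Complex.normSq_apply] <;> norm_num, ?_⟩
        ext k
        fin_cases k <;> simp [pauli, Matrix.mulVec, dotProduct, Complex.ext_iff] <;> norm_num)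
    Del (by
    intro d
    have := dart_adj d
    simp only [Del, Finset.mem_filter, Finset.mem_univ, true_and, SimpleGraph.Dart.symm,
      Prod.fst_swap, Prod.snd_swap, Fin.lt_def]
    omega)
  have h1 := num_eq
  have h2 := den_eq
  have h3 := ratio
  rw [← h1, ← h2] at h3
  exact absurd h (not_le.2 h3)

end Pool.Agent.Results.MP_84cbe7_co.PathCounter
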